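import Pool.Agent.KS6_12.RN.Line
import Pool.Agent.KS6_12.RN.Three
import Pool.Agent.KS6_12.RN.Four

/-!
MP_d3aff2_co: the replacement number of `ℝⁿ` in every dimension.
-/

set_option autoImplicit false

namespace Pool.Agent.Results.MP_d3aff2_co.EveryDimension

open Pool.Agent.KS6_12.RN

/-- Euclidean `n`-space. -/
abbrev E (n : ℕ) : Type := EuclideanSpace ℝ (Fin n)

/-- A coloring of `ℝⁿ` is distinguishing if only the identity isometry preserves it. -/
def Distinguishing {n k : ℕ} (c : E n → Fin k) : Prop :=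
  ∀ g : E n ≃ᵢ E n, (∀ x, c (g x) = c x) → g = IsometryEquiv.refl (E n)

/-- The distinguishing number of `ℝⁿ`: the least `k` such that there is a distinguishing
`k`-coloring. -/
noncomputable def distNumber (n : ℕ) : ℕ := sInf {k | ∃ c : E n → Fin k, Distinguishing c}

/-- Every coloring with `distNumber n` colors can be made distinguishing by changing the colors of
at most `m` points. -/
def Repairs (n m : ℕ) : Prop :=
  ∀ c : E n → Fin (distNumber n), ∃ c' : E n → Fin (distNumber n),
    Distinguishing c' ∧ {x | c' x ≠ c x}.encard ≤ m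

/-- The replacement number of `ℝⁿ` (with the value `⊤` if there is no finite `m`). -/
noncomputable def replacementNumber (n : ℕ) : ℕ∞ := sInf {m : ℕ∞ | ∃ k : ℕ, m = k ∧ Repairs n k}

section

variable {X : Type} [MetricSpace X] {n : ℕ}

/-- the permutation induced by an isometry of `ℝⁿ` -/
theorem upper (φ : X ≃ᵢ E n) (h : ∀ A : Set X, ∃ T : Set X, T.encard ≤ 3 ∧
    ∀ g : Equiv.Perm X, Isometry g → (∀ x, g x ∈ Fl A T ↔ x ∈ Fl A T) → g = 1) (c : E n → Fin 2) :
    ∃ c' : E n → Fin 2, Distinguishing c' ∧ {x | c' x ≠ c x}.encard ≤ 3 := by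
  classical
  obtain ⟨T, hT, hg⟩ := h {x | c (φ x) = 1}
  let c' : E n → Fin 2 := fun y => if φ.symm y ∈ T then 1 - c y else c y
  have hc' : ∀ x : X, c' (φ x) = 1 ↔ x ∈ Fl {x | c (φ x) = 1} T := by
    intro x
    have h2 : ∀ a : Fin 2, (1 - a = 1) ↔ ¬ (a = 1) := by decide
    simp only [c', IsometryEquiv.symm_apply_apply, Fl, Set.mem_ofPred_eq]
    by_cases hx : x ∈ T
    · rw [if_pos hx, h2]; tauto
    · rw [if_neg hx]; tauto
  refine ⟨c', fun g hgc => ?_, ?_⟩
  · have h1 := hg ((φ.toEquiv.trans g.toEquiv).trans φ.symm.toEquiv)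
      (φ.symm.isometry.comp (g.isometry.comp φ.isometry)) (fun x => by
        rw [← hc', ← hc']
        show c' (φ (φ.symm (g (φ x)))) = 1 ↔ _
        rw [IsometryEquiv.apply_symm_apply, hgc])
    ext1 y
    have h2 := congrArg (fun f : Equiv.Perm X => φ (f (φ.symm y))) h1
    have h3 : φ (φ.symm (g (φ (φ.symm y)))) = φ (φ.symm y) := h2
    rwa [IsometryEquiv.apply_symm_apply, IsometryEquiv.apply_symm_apply] at h3
  · refine le_trans ?_ hT
    have h1 : {x | c' x ≠ c x} ⊆ φ '' T := by
      intro y hy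
      by_contra hcon
      apply hy
      have : φ.symm y ∉ T := fun h => hcon ⟨_, h, φ.apply_symm_apply y⟩
      simp only [c', if_neg this]
    exact (Set.encard_le_encard h1).trans (Set.encard_image_le _ _)

theorem lower (φ : X ≃ᵢ E n) (h : ∀ T : Set X, T.encard ≤ 2 →
    ∃ g : Equiv.Perm X, Isometry g ∧ g ≠ 1 ∧ ∀ x, g x ∈ T ↔ x ∈ T) :
    ∃ c : E n → Fin 2, ∀ c' : E n → Fin 2, {x | c' x ≠ c x}.encard ≤ 2 → ¬ Distinguishing c' := by
  refine ⟨fun _ => 0, fun c' hc' hd => ?_⟩
  have h1 : (φ ⁻¹' {x | c' x ≠ 0}).encard ≤ 2 := by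
    have e : φ ⁻¹' {x | c' x ≠ 0} = φ.symm '' {x | c' x ≠ 0} := by
      rw [IsometryEquiv.image_symm]
    rw [e]
    exact (Set.encard_image_le _ _).trans hc'
  obtain ⟨g, hg, hg1, hgT⟩ := h _ h1
  apply hg1
  have h2 := hd ((φ.symm.trans ⟨g, hg⟩).trans φ) (fun y => by
    show c' (φ (g (φ.symm y))) = c' y
    have h3 := hgT (φ.symm y)
    simp only [Set.mem_preimage, Set.mem_ofPred_eq, IsometryEquiv.apply_symm_apply] at h3
    have h4 : ∀ a b : Fin 2, (a ≠ 0 ↔ b ≠ 0) → a = b := by decide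
    exact h4 _ _ h3)
  ext1 x
  have h3 := congrArg (fun f : E n ≃ᵢ E n => φ.symm (f (φ x))) h2
  have h4 : φ.symm (φ (g (φ.symm (φ x)))) = φ.symm (φ x) := h3
  rwa [IsometryEquiv.symm_apply_apply, IsometryEquiv.symm_apply_apply] at h4

end

/-- sets with at most two points -/
theorem two_cases {X : Type} {T : Set X} (h : T.encard ≤ 2) : T = ∅ ∨ (∃ x, T = {x}) ∨ ∃ x y, x ≠ y ∧ T = {x, y} := by
  have hf : T.Finite := Set.finite_of_encard_le_coe h
  have h1 : T.encard = T.ncard := (hf.cast_ncard_eq).symm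
  rw [h1] at h
  have h2 : T.ncard ≤ 2 := by exact_mod_cast h
  interval_cases hn : T.ncard
  · left; exact (Set.ncard_eq_zero hf).1 hn
  · right; left; exact Set.ncard_eq_one.1 hn
  · right; right; exact Set.ncard_eq_two.1 hn

theorem plane_low (T : Set ℂ) (hT : T.encard ≤ 2) :
    ∃ g : Equiv.Perm ℂ, Isometry g ∧ g ≠ 1 ∧ ∀ x, g x ∈ T ↔ x ∈ T := by
  -- reflection in the line through two points
  have key : ∀ p q : ℂ, p ≠ q → ∃ g : Equiv.Perm ℂ, Isometry g ∧ g ≠ 1 ∧ g p = p ∧ g q = q := by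
    intro p q hpq
    have hqp : q - p ≠ 0 := sub_ne_zero.2 hpq.symm
    have hc : (starRingEnd ℂ) (q - p) ≠ 0 := by
      rw [Ne, map_eq_zero]; exact hqp
    set u : ℂ := (q - p) / (starRingEnd ℂ) (q - p) with hu
    have hun : ‖u‖ = 1 := by
      rw [hu, norm_div, RCLike.norm_conj, div_self (norm_ne_zero_iff.2 hqp)]
    have huu : u * (starRingEnd ℂ) u = 1 := by
      rw [Complex.mul_conj, Complex.normSq_eq_norm_sq, hun]; norm_num
    let f : ℂ → ℂ := fun z => u * (starRingEnd ℂ) (z - p) + p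
    have hf : Function.Involutive f := by
      intro z
      simp only [f, add_sub_cancel_right, map_mul, Complex.conj_conj]
      rw [← mul_assoc, huu]; ring
    refine ⟨hf.toPerm, ?_, ?_, ?_, ?_⟩
    · apply Isometry.of_dist_eq
      intro x y
      show dist (f x) (f y) = dist x y
      rw [dist_eq_norm, dist_eq_norm]
      have : f x - f y = u * (starRingEnd ℂ) (x - y) := by
        simp only [f, map_sub]; ring
      rw [this, norm_mul, hun, one_mul, RCLike.norm_conj]
    · intro h
      have h0 : ∀ z, f z = z := fun z => congrArg (fun g : Equiv.Perm ℂ => g z) h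
      have h1 := h0 (p + 1)
      have h2 := h0 (p + Complex.I)
      simp only [f, add_sub_cancel_left, map_one, Complex.conj_I] at h1 h2
      have h3 : u = 1 := by linear_combination h1
      rw [h3] at h2
      have := congrArg Complex.im h2
      simp at this
      linarith
    · show f p = p
      simp [f]
    · show f q = q
      simp only [f]
      rw [hu, div_mul_cancel₀ _ hc]; ring
  have fin : ∀ g : Equiv.Perm ℂ, (∀ x ∈ T, g x = x) → ∀ x, g x ∈ T ↔ x ∈ T := by
    intro g hg x
    constructor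
    · intro h
      have h1 := hg _ h
      rw [g.injective h1] at h
      exact h
    · intro h; rw [hg x h]; exact h
  rcases two_cases hT with h | ⟨x, h⟩ | ⟨x, y, hxy, h⟩
  · obtain ⟨g, h1, h2, -, -⟩ := key 0 1 (by norm_num)
    exact ⟨g, h1, h2, fin g (by rw [h]; simp)⟩
  · obtain ⟨g, h1, h2, h3, -⟩ := key x (x + 1) (by simp)
    refine ⟨g, h1, h2, fin g ?_⟩
    rw [h]; intro z hz
    rw [Set.mem_singleton_iff.1 hz]; exact h3
  · obtain ⟨g, h1, h2, h3, h4⟩ := key x y hxy
    refine ⟨g, h1, h2, fin g ?_⟩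
    rw [h]; intro z hz
    rcases hz with rfl | hz
    · exact h3
    · rw [Set.mem_singleton_iff.1 hz]; exact h4

theorem line_low (T : Set ℝ) (hT : T.encard ≤ 2) :
    ∃ g : Equiv.Perm ℝ, Isometry g ∧ g ≠ 1 ∧ ∀ x, g x ∈ T ↔ x ∈ T := by
  have key : ∀ w : ℝ, ∃ g : Equiv.Perm ℝ, Isometry g ∧ g ≠ 1 ∧ ∀ x, g x = w - x := by
    intro w
    have hf : Function.Involutive fun z : ℝ => w - z := fun z => by simp
    refine ⟨hf.toPerm, ?_, ?_, fun x => rfl⟩
    · apply Isometry.of_dist_eq
      intro x y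
      show dist (w - x) (w - y) = dist x y
      rw [Real.dist_eq, Real.dist_eq, ← abs_neg]
      congr 1; ring
    · intro h
      have h0 : ∀ z, w - z = z := fun z => congrArg (fun g : Equiv.Perm ℝ => g z) h
      have h1 := h0 0
      have h2 := h0 1
      linarith
  rcases two_cases hT with h | ⟨x, h⟩ | ⟨x, y, hxy, h⟩
  · obtain ⟨g, h1, h2, -⟩ := key 0
    exact ⟨g, h1, h2, by rw [h]; simp⟩
  · obtain ⟨g, h1, h2, h3⟩ := key (2 * x)
    refine ⟨g, h1, h2, fun z => ?_⟩
    rw [h, Set.mem_singleton_iff, Set.mem_singleton_iff, h3]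
    constructor <;> intro h <;> linarith
  · obtain ⟨g, h1, h2, h3⟩ := key (x + y)
    refine ⟨g, h1, h2, fun z => ?_⟩
    rw [h, Set.mem_insert_iff, Set.mem_singleton_iff, Set.mem_insert_iff, Set.mem_singleton_iff, h3]
    constructor
    · rintro (h | h)
      · right; linarith
      · left; linarith
    · rintro (h | h)
      · right; linarith
      · left; linarith

/-- the plane and the line -/
noncomputable def φ2 : ℂ ≃ᵢ E 2 := Complex.orthonormalBasisOneI.repr.toIsometryEquiv

noncomputable def φ1 : ℝ ≃ᵢ E 1 := (OrthonormalBasis.singleton (Fin 1) ℝ).repr.toIsometryEquiv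

theorem dist_one : distNumber 1 = 2 := by
  classical
  have h2 : (2 : ℕ) ∈ {k | ∃ c : E 1 → Fin k, Distinguishing c} := by
    obtain ⟨c', h, -⟩ := upper φ1 line fun _ => 0
    exact ⟨c', h⟩
  apply le_antisymm (Nat.sInf_le h2)
  apply le_csInf ⟨2, h2⟩
  rintro k ⟨c, hc⟩
  by_contra hk
  have hk' : k = 0 ∨ k = 1 := by omega
  rcases hk' with rfl | rfl
  · exact Fin.elim0 (c 0)
  · have h1 := hc (LinearIsometryEquiv.neg ℝ (E := E 1)).toIsometryEquiv
      (fun x => Subsingleton.elim _ _)
    have h3 : (LinearIsometryEquiv.neg ℝ (E := E 1)).toIsometryEquiv (EuclideanSpace.single 0 1) =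
        EuclideanSpace.single 0 1 := by rw [h1]; rfl
    have h4 : -(EuclideanSpace.single (0 : Fin 1) (1 : ℝ) : E 1) = EuclideanSpace.single 0 1 := h3
    have h5 := congrArg (fun v : E 1 => v 0) h4
    simp at h5
    linarith

theorem dist_two {n : ℕ} (hn : 1 ≤ n) : distNumber n = 2 := by
  rcases Nat.lt_or_ge n 2 with h | h
  · obtain rfl : n = 1 := by omega
    exact dist_one
  · exact ReplacementInfinite.distNumber_eq h

theorem repl_three {n : ℕ} (hn : 1 ≤ n) (hu : ∀ c : E n → Fin 2, ∃ c' : E n → Fin 2,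
      Distinguishing c' ∧ {x | c' x ≠ c x}.encard ≤ 3)
    (hl : ∃ c : E n → Fin 2, ∀ c' : E n → Fin 2, {x | c' x ≠ c x}.encard ≤ 2 → ¬ Distinguishing c') :
    replacementNumber n = 3 := by
  have hd := dist_two hn
  have h3 : Repairs n 3 := by
    unfold Repairs
    rw [hd]
    exact hu
  have h2 : ∀ k : ℕ, k ≤ 2 → ¬ Repairs n k := by
    intro k hk h
    unfold Repairs at h
    rw [hd] at h
    obtain ⟨c, hc⟩ := hl
    obtain ⟨c', h4, h5⟩ := h c
    refine hc c' (h5.trans ?_) h4
    exact_mod_cast hk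
  apply le_antisymm
  · exact sInf_le ⟨3, rfl, h3⟩
  · apply le_sInf
    rintro m ⟨k, rfl, hk⟩
    by_contra hcon
    push Not at hcon
    have : k < 3 := by exact_mod_cast hcon
    exact h2 k (by omega) hk

theorem infinite_of_bad {n : ℕ} (hn : 1 ≤ n)
    (hb : ∃ c : E n → Fin 2, ∀ c' : E n → Fin 2, {x | c' x ≠ c x}.Countable → ¬ Distinguishing c') :
    replacementNumber n = ⊤ := by
  have hempty : {m : ℕ∞ | ∃ k : ℕ, m = k ∧ Repairs n k} = ∅ := by
    ext m
    simp only [Set.mem_ofPred_eq, Set.mem_empty_iff_false, iff_false]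
    rintro ⟨k, -, hk⟩
    unfold Repairs at hk
    rw [dist_two hn] at hk
    obtain ⟨c, hc⟩ := hb
    obtain ⟨c', h3, h4⟩ := hk c
    exact hc c' (Set.finite_of_encard_le_coe h4).countable h3
  rw [replacementNumber, hempty]
  exact sInf_empty

/-- **The replacement number of `ℝⁿ` in every dimension `n ≥ 1`.**  The distinguishing number is
`2`; the replacement number is `3` if `n ≤ 2` and infinite if `n ≥ 3`; and for `n ≥ 3` some
`2`-coloring does not become distinguishing by any change of the colors of countably many points. -/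
theorem result (n : ℕ) (hn : 1 ≤ n) :
    distNumber n = 2 ∧ replacementNumber n = (if n ≤ 2 then 3 else ⊤) ∧
      (3 ≤ n → ∃ c : E n → Fin 2, ∀ c' : E n → Fin 2, {x | c' x ≠ c x}.Countable →
        ¬ Distinguishing c') := by
  have hbad : 3 ≤ n → ∃ c : E n → Fin 2, ∀ c' : E n → Fin 2, {x | c' x ≠ c x}.Countable →
      ¬ Distinguishing c' := by
    intro h3
    rcases Nat.lt_or_ge n 4 with h | h
    · obtain rfl : n = 3 := by omega
      exact Three.three 2 (by norm_num)
    · obtain ⟨k, rfl⟩ := Nat.exists_eq_add_of_le h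
      exact Four.four k
  refine ⟨dist_two hn, ?_, hbad⟩
  split_ifs with h
  · rcases Nat.lt_or_ge n 2 with h1 | h1
    · obtain rfl : n = 1 := by omega
      exact repl_three le_rfl (upper φ1 line) (lower φ1 line_low)
    · obtain rfl : n = 2 := by omega
      exact repl_three hn (upper φ2 plane) (lower φ2 plane_low)
  · exact infinite_of_bad hn (hbad (by omega))

end Pool.Agent.Results.MP_d3aff2_co.EveryDimension
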